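import Pool.Agent.H338Z.Perm.Final

set_option autoImplicit false

open Pool.Agent.H338Z.Pack

/-- Negative answer to Q2: for every odd `d ≥ 5`, the set of symmetric convex bodies that have a
densest lattice and all of whose densest lattice packings are disconnected is not meager. -/
theorem Pool.Agent.Results.MP_2a19ed_co.ADisconnected.result (d : ℕ) (hd : 5 ≤ d) (hodd : Odd d) :
    ¬ IsMeagre {C : Bodies d | (∃ B, IsDensest C B) ∧
      ∀ B, IsDensest C B → ¬ IsPreconnected (packingUnion C B)} :=
  Pool.Agent.H338Z.Perm.final hd hodd
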